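import Mathlib

open MvPolynomial

namespace Pool.Agent.Lib.MP_3122b6_ag

/-- `f_A^{(d)} = ∑_{j=1}^d ∏_{i ∈ A} y_{i,j}` in `k[y_{i,j} : i ∈ [n], j ∈ [d]]`. -/
noncomputable def lssGen (k : Type*) [Field k] {n : ℕ} (d : ℕ) (A : Finset (Fin n)) :
    MvPolynomial (Fin n × Fin d) k :=
  ∑ j : Fin d, ∏ i ∈ A, X (i, j)

/-- The Lovász–Saks–Schrijver ideal `L_H^k(d) = (f_A^{(d)} : A ∈ E)`. -/
noncomputable def lssIdeal (k : Type*) [Field k] {n : ℕ} (E : Set (Finset (Fin n))) (d : ℕ) :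
    Ideal (MvPolynomial (Fin n × Fin d) k) :=
  Ideal.span (lssGen k d '' E)

end Pool.Agent.Lib.MP_3122b6_ag
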