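import Mathlib

/-!
An abstract primeness criterion for ideals `(f_A + u_A)` of `R[z]` deforming a prime ideal `(f_A)`.
-/

open MvPolynomial

namespace Pool.Agent.Lib.MP_3122b6_ag

section Order

variable {σ K : Type*} [CommRing K]

lemma sub_homogeneousComponent_mem {k : ℕ} {a : MvPolynomial σ K}
    (ha : a ∈ idealOfVars σ K ^ k) :
    a - homogeneousComponent k a ∈ idealOfVars σ K ^ (k + 1) := by
  rw [mem_pow_idealOfVars_iff'] at ha ⊢
  intro x hx
  rw [coeff_sub, coeff_homogeneousComponent]
  split_ifs with h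
  · simp
  · rw [ha x (by omega), sub_zero]

lemma homogeneous_mem_pow {k : ℕ} {a : MvPolynomial σ K} (ha : a.IsHomogeneous k) :
    a ∈ idealOfVars σ K ^ k := by
  rw [mem_pow_idealOfVars_iff']
  intro x hx
  exact ha.coeff_eq_zero (by omega)

lemma homogeneous_eq_zero_of_mem {k : ℕ} {a : MvPolynomial σ K} (ha : a.IsHomogeneous k)
    (h : a ∈ idealOfVars σ K ^ (k + 1)) : a = 0 := by
  rw [mem_pow_idealOfVars_iff'] at h
  ext x
  by_cases hx : x.degree = k
  · rw [h x (by omega), coeff_zero]
  · rw [ha.coeff_eq_zero hx, coeff_zero]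

lemma mul_not_mem_pow [IsDomain K] {k l : ℕ} {a b : MvPolynomial σ K}
    (ha : a ∈ idealOfVars σ K ^ k) (ha' : a ∉ idealOfVars σ K ^ (k + 1))
    (hb : b ∈ idealOfVars σ K ^ l) (hb' : b ∉ idealOfVars σ K ^ (l + 1)) :
    a * b ∉ idealOfVars σ K ^ (k + l + 1) := by
  intro h
  set a₀ := homogeneousComponent k a with ha₀
  set b₀ := homogeneousComponent l b with hb₀
  have h1 := sub_homogeneousComponent_mem ha
  have h2 := sub_homogeneousComponent_mem hb
  have ha₀h : a₀.IsHomogeneous k := homogeneousComponent_isHomogeneous k a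
  have hb₀h : b₀.IsHomogeneous l := homogeneousComponent_isHomogeneous l b
  have ha₀0 : a₀ ≠ 0 := fun e => ha' (by simpa [← ha₀, e] using h1)
  have hb₀0 : b₀ ≠ 0 := fun e => hb' (by simpa [← hb₀, e] using h2)
  have t1 : (a - a₀) * b ∈ idealOfVars σ K ^ (k + l + 1) := by
    have := Ideal.mul_mem_mul h1 hb
    rwa [← pow_add, show k + 1 + l = k + l + 1 by ring] at this
  have t2 : a₀ * (b - b₀) ∈ idealOfVars σ K ^ (k + l + 1) := by
    have := Ideal.mul_mem_mul (homogeneous_mem_pow ha₀h) h2
    rwa [← pow_add, ← add_assoc] at this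
  have t3 : a₀ * b₀ ∈ idealOfVars σ K ^ (k + l + 1) := by
    have : a₀ * b₀ = a * b - (a - a₀) * b - a₀ * (b - b₀) := by ring
    rw [this]
    exact sub_mem (sub_mem h t1) t2
  exact mul_ne_zero ha₀0 hb₀0 (homogeneous_eq_zero_of_mem (ha₀h.mul hb₀h) t3)

end Order

section Criterion

variable {σ R K ι : Type*} [CommRing R] [CommRing K]

lemma map_mem_pow (π : R →+* K) {k : ℕ} {g : MvPolynomial σ R} (hg : g ∈ idealOfVars σ R ^ k) :
    MvPolynomial.map π g ∈ idealOfVars σ K ^ k := by
  rw [mem_pow_idealOfVars_iff'] at hg ⊢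
  intro x hx
  rw [coeff_map, hg x hx, map_zero]

lemma monomial_one_mem_pow (γ : σ →₀ ℕ) :
    (monomial γ (1 : R)) ∈ idealOfVars σ R ^ γ.degree :=
  homogeneous_mem_pow (isHomogeneous_monomial _ rfl)

lemma hom_sub_map_mem (π : R →+* K) (Ψ : MvPolynomial σ R →+* MvPolynomial σ K)
    (hX : ∀ i, Ψ (X i) = X i) (hC : ∀ r, Ψ (C r) - C (π r) ∈ idealOfVars σ K)
    {k : ℕ} {g : MvPolynomial σ R} (hg : g ∈ idealOfVars σ R ^ k) :
    Ψ g - MvPolynomial.map π g ∈ idealOfVars σ K ^ (k + 1) := by
  rw [mem_pow_idealOfVars_iff] at hg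
  rw [g.as_sum, map_sum, map_sum, ← Finset.sum_sub_distrib]
  refine Ideal.sum_mem _ fun γ hγ => ?_
  have hm : Ψ (monomial γ 1) = monomial γ 1 := by
    rw [monomial_eq, monomial_eq, map_one, map_one, one_mul, one_mul, Finsupp.prod, Finsupp.prod,
      map_prod]
    simp [hX]
  have e1 : monomial γ (coeff γ g) = C (coeff γ g) * monomial γ 1 := by
    rw [C_mul_monomial, mul_one]
  rw [e1, map_mul, map_mul, hm, map_C, map_monomial, π.map_one, ← sub_mul]
  have := Ideal.mul_mem_mul (hC (coeff γ g)) (monomial_one_mem_pow (R := K) γ)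
  rw [← pow_succ'] at this
  exact Ideal.pow_le_pow_right (by have := hg γ hγ; omega) this

theorem isPrime_of_deform [IsDomain K] (π : R →+* K) (f : ι → R)
    (hker : ∀ r, π r = 0 → r ∈ Ideal.span (Set.range f))
    (u : ι → MvPolynomial σ R) (hu : ∀ A, u A ∈ idealOfVars σ R)
    (H1 : ∀ N : ℕ, ∃ Ψ : MvPolynomial σ R →+* MvPolynomial σ K, (∀ i, Ψ (X i) = X i) ∧
      (∀ r, Ψ (C r) - C (π r) ∈ idealOfVars σ K) ∧
      ∀ A, Ψ (C (f A) + u A) ∈ idealOfVars σ K ^ N)
    (H2 : ∀ g : MvPolynomial σ R,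
      (∀ N : ℕ, g ∈ Ideal.span (Set.range fun A => C (f A) + u A) ⊔ idealOfVars σ R ^ N) →
      g ∈ Ideal.span (Set.range fun A => C (f A) + u A)) :
    (Ideal.span (Set.range fun A => C (f A) + u A)).IsPrime := by
  set J : Ideal (MvPolynomial σ R) := Ideal.span (Set.range fun A => C (f A) + u A) with hJ
  set m := idealOfVars σ R with hm
  have hL : ∀ c ∈ Ideal.span (Set.range f), (C c : MvPolynomial σ R) ∈ J ⊔ m := by
    intro c hc
    have : Ideal.span (Set.range f) ≤ (J ⊔ m).comap (C : R →+* MvPolynomial σ R) := by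
      rw [Ideal.span_le]
      rintro _ ⟨A, rfl⟩
      have e : (C (f A) : MvPolynomial σ R) = (C (f A) + u A) - u A := by ring
      change (C (f A) : MvPolynomial σ R) ∈ J ⊔ m
      rw [e]
      exact sub_mem (Ideal.mem_sup_left (Ideal.subset_span ⟨A, rfl⟩)) (Ideal.mem_sup_right (hu A))
    exact this hc
  have step : ∀ (k : ℕ) (g : MvPolynomial σ R), g ∈ m ^ k →
      MvPolynomial.map π g ∈ idealOfVars σ K ^ (k + 1) → g ∈ J ⊔ m ^ (k + 1) := by
    intro k g hg hπ
    rw [hm, mem_pow_idealOfVars_iff] at hg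
    rw [mem_pow_idealOfVars_iff'] at hπ
    rw [g.as_sum]
    refine Ideal.sum_mem _ fun γ hγ => ?_
    have e1 : monomial γ (coeff γ g) = C (coeff γ g) * monomial γ 1 := by
      rw [C_mul_monomial, mul_one]
    rw [e1]
    rcases (hg γ hγ).eq_or_lt with h | h
    · have hc : coeff γ g ∈ Ideal.span (Set.range f) := by
        apply hker
        have := hπ γ (by omega)
        rwa [coeff_map] at this
      have t := Ideal.mul_mem_mul (hL _ hc) (monomial_one_mem_pow (R := R) γ)
      rw [← h, Ideal.sup_mul, ← hm, ← pow_succ'] at t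
      have hle : J * m ^ k ⊔ m ^ (k + 1) ≤ J ⊔ m ^ (k + 1) :=
        sup_le_sup_right Ideal.mul_le_left _
      exact hle t
    · exact Ideal.mem_sup_right (Ideal.mul_mem_left _ _
        (Ideal.pow_le_pow_right h (monomial_one_mem_pow (R := R) γ)))
  have rep : ∀ g : MvPolynomial σ R, g ∉ J → ∃ (k : ℕ) (g' : MvPolynomial σ R), g - g' ∈ J ∧
      g' ∈ m ^ k ∧ MvPolynomial.map π g' ∉ idealOfVars σ K ^ (k + 1) := by
    intro g hg
    by_contra hcon
    push Not at hcon
    refine hg (H2 g fun N => ?_)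
    induction N with
    | zero => simp
    | succ N ih =>
      obtain ⟨a, ha, b, hb, rfl⟩ := Submodule.mem_sup.mp ih
      have := step N b hb (hcon N b (by simpa using ha) hb)
      exact add_mem (Ideal.mem_sup_left ha) this
  have hΨJ : ∀ (N : ℕ) (Ψ : MvPolynomial σ R →+* MvPolynomial σ K),
      (∀ A, Ψ (C (f A) + u A) ∈ idealOfVars σ K ^ N) → ∀ g ∈ J, Ψ g ∈ idealOfVars σ K ^ N := by
    intro N Ψ h g hg
    have : J ≤ (idealOfVars σ K ^ N).comap Ψ := by
      rw [hJ, Ideal.span_le]
      rintro _ ⟨A, rfl⟩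
      exact h A
    exact this hg
  refine ⟨?_, fun {g h} hgh => ?_⟩
  · intro htop
    obtain ⟨Ψ, -, -, h3⟩ := H1 1
    have := hΨJ 1 Ψ h3 1 (by rw [htop]; trivial)
    rw [map_one, ← C_1, C_mem_pow_idealOfVars_iff] at this
    simp at this
  · by_contra hcon
    push Not at hcon
    obtain ⟨k, g', hg1, hg2, hg3⟩ := rep g hcon.1
    obtain ⟨l, h', hh1, hh2, hh3⟩ := rep h hcon.2
    have hJ' : g' * h' ∈ J := by
      have : g' * h' = g * h - (g - g') * h - g' * (h - h') := by ring
      rw [this]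
      exact sub_mem (sub_mem hgh (Ideal.mul_mem_right _ _ hg1)) (Ideal.mul_mem_left _ _ hh1)
    obtain ⟨Ψ, h1, h2, h3⟩ := H1 (k + l + 1)
    have t1 := hΨJ _ Ψ h3 _ hJ'
    have t2 : g' * h' ∈ m ^ (k + l) := by
      rw [pow_add]
      exact Ideal.mul_mem_mul hg2 hh2
    have t3 := hom_sub_map_mem π Ψ h1 h2 t2
    have t4 : MvPolynomial.map π (g' * h') ∈ idealOfVars σ K ^ (k + l + 1) := by
      have := sub_mem t1 t3
      rwa [sub_sub_cancel] at this
    rw [map_mul] at t4
    exact mul_not_mem_pow (map_mem_pow π hg2) hg3 (map_mem_pow π hh2) hh3 t4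

end Criterion

section Newton

variable {k τ S : Type*} [CommRing k] [CommRing S] [Algebra k S]

lemma aeval_sub_mem (I : Ideal S) (v v' : τ → S) (h : ∀ y, v y - v' y ∈ I)
    (p : MvPolynomial τ k) : aeval v p - aeval v' p ∈ I := by
  rw [← Ideal.Quotient.eq]
  have : (Ideal.Quotient.mkₐ k I).comp (aeval v) = (Ideal.Quotient.mkₐ k I).comp (aeval v') := by
    ext y
    simpa [Ideal.Quotient.eq] using h y
  exact DFunLike.congr_fun this p

lemma taylor_one [Fintype τ] [DecidableEq τ] (I : Ideal S) (v h : τ → S) (hh : ∀ y, h y ∈ I)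
    (p : MvPolynomial τ k) :
    aeval (v + h) p - aeval v p - ∑ y, aeval v (pderiv y p) * h y ∈ I ^ 2 := by
  induction p using MvPolynomial.induction_on with
  | C a => simp
  | add p q hp hq =>
    have := add_mem hp hq
    convert this using 1
    simp only [map_add, add_mul, Finset.sum_add_distrib]
    ring
  | mul_X p y hp =>
    have h1 : aeval (v + h) p - aeval v p ∈ I :=
      aeval_sub_mem I _ _ (fun y => by simpa using hh y) p
    have h2 : (aeval (v + h) p - aeval v p) * h y ∈ I ^ 2 := by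
      rw [pow_two]
      exact Ideal.mul_mem_mul h1 (hh y)
    have := add_mem (Ideal.mul_mem_right (v y) _ hp) h2
    convert this using 1
    have e : ∑ x, aeval v (pderiv x (p * X y)) * h x
        = (∑ x, aeval v (pderiv x p) * h x) * v y + aeval v p * h y := by
      simp only [pderiv_mul, map_add, map_mul, aeval_X, add_mul, Finset.sum_add_distrib,
        Finset.sum_mul]
      congr 1
      · exact Finset.sum_congr rfl fun x _ => by ring
      · rw [Finset.sum_eq_single y]
        · simp
        · intro x _ hx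
          rw [pderiv_X_of_ne hx.symm]
          simp
        · simp
    rw [e]
    simp only [map_mul, aeval_X, Pi.add_apply]
    ring

variable {σ K ι : Type*} [CommRing K] [Algebra k K]

theorem exists_newton [Fintype τ] [DecidableEq τ] [Fintype ι] [DecidableEq ι]
    (π : MvPolynomial τ k →ₐ[k] K) (f : ι → MvPolynomial τ k) (hf : ∀ A, π (f A) = 0)
    (w : ι → τ → K)
    (hw : ∀ A B, ∑ y, π (pderiv y (f B)) * w A y = if A = B then 1 else 0)
    (u : ι → MvPolynomial σ K) (hu : ∀ A, u A ∈ idealOfVars σ K) (N : ℕ) :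
    ∃ v : τ → MvPolynomial σ K, (∀ y, v y - C (π (X y)) ∈ idealOfVars σ K) ∧
      ∀ A, aeval v (f A) + u A ∈ idealOfVars σ K ^ (N + 1) := by
  have hπ : ∀ p : MvPolynomial τ k,
      aeval (fun y => (C (π (X y)) : MvPolynomial σ K)) p = C (π p) := by
    intro p
    have : (aeval (fun y => (C (π (X y)) : MvPolynomial σ K)) : MvPolynomial τ k →ₐ[k] _)
        = (IsScalarTower.toAlgHom k K (MvPolynomial σ K)).comp π := by
      ext y : 1
      simp
    rw [this]
    simp
  induction N with
  | zero =>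
    refine ⟨fun y => C (π (X y)), fun y => by simp, fun A => ?_⟩
    rw [hπ, hf]
    simpa using hu A
  | succ N ih =>
    obtain ⟨v, hv1, hv2⟩ := ih
    set m := idealOfVars σ K with hm
    set r : ι → MvPolynomial σ K := fun A => aeval v (f A) + u A with hr
    set h : τ → MvPolynomial σ K := fun y => -∑ A, r A * C (w A y) with hh
    have hhm : ∀ y, h y ∈ m ^ (N + 1) := fun y =>
      neg_mem (Ideal.sum_mem _ fun A _ => Ideal.mul_mem_right _ _ (hv2 A))
    refine ⟨v + h, fun y => ?_, fun B => ?_⟩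
    · have := add_mem (hv1 y) (Ideal.pow_le_self (by omega) (hhm y))
      convert this using 1
      simp only [Pi.add_apply]
      ring
    · have t1 := taylor_one (k := k) (m ^ (N + 1)) v h hhm (f B)
      have t1' : aeval (v + h) (f B) - aeval v (f B) - ∑ y, aeval v (pderiv y (f B)) * h y
          ∈ m ^ (N + 1 + 1) := by
        rw [← pow_mul] at t1
        exact Ideal.pow_le_pow_right (by omega) t1
      have t2 : ∑ y, (aeval v (pderiv y (f B)) - C (π (pderiv y (f B)))) * h y
          ∈ m ^ (N + 1 + 1) := by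
        refine Ideal.sum_mem _ fun y _ => ?_
        rw [pow_succ']
        refine Ideal.mul_mem_mul ?_ (hhm y)
        rw [← hπ]
        exact aeval_sub_mem m _ _ hv1 _
      have t3 : ∑ y, (C (π (pderiv y (f B))) : MvPolynomial σ K) * h y = -r B := by
        simp only [hh, mul_neg, Finset.mul_sum, Finset.sum_neg_distrib]
        rw [Finset.sum_comm]
        congr 1
        have : ∀ A, ∑ y, (C (π (pderiv y (f B))) : MvPolynomial σ K) * (r A * C (w A y))
            = r A * C (if A = B then 1 else 0) := by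
          intro A
          rw [← hw A B, map_sum, Finset.mul_sum]
          refine Finset.sum_congr rfl fun y _ => ?_
          rw [map_mul]
          ring
        simp_rw [this]
        rw [Finset.sum_eq_single B]
        · simp
        · intro A _ hA
          simp [hA]
        · simp
      have := add_mem t1' t2
      convert this using 1
      simp only [sub_mul, Finset.sum_sub_distrib, t3, hr]
      ring

end Newton

end Pool.Agent.Lib.MP_3122b6_ag
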