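import Mathlib
import Pool.Agent.Lib.MP_3122b6_ag.Defs
import Pool.Agent.Lib.MP_3122b6_ag.Deform

open MvPolynomial

namespace Pool.Agent.Lib.MP_3122b6_ag

variable {k : Type*} [Field k] {n : ℕ}

lemma eval_eq_zero_of_mem {d : ℕ} {E : Set (Finset (Fin n))} (p : Fin n × Fin d → k)
    (hp : ∀ A ∈ E, ∀ j : Fin d, ∃ i ∈ A, p (i, j) = 0) {g : MvPolynomial (Fin n × Fin d) k}
    (hg : g ∈ lssIdeal k E d) : eval p g = 0 := by
  have : lssIdeal k E d ≤ RingHom.ker (eval p) := by
    rw [lssIdeal, Ideal.span_le]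
    rintro _ ⟨A, hA, rfl⟩
    change eval p (lssGen k d A) = 0
    rw [lssGen, map_sum]
    refine Finset.sum_eq_zero fun j _ => ?_
    obtain ⟨i, hi, h0⟩ := hp A hA j
    rw [map_prod]
    exact Finset.prod_eq_zero hi (by simpa using h0)
  exact this hg

lemma det_not_mem {d : ℕ} {E : Set (Finset (Fin n))} (hne : ∀ A ∈ E, A.Nonempty)
    (hcl : ∀ A ∈ E, ∀ B ∈ E, A ⊆ B → A = B) (v : Fin n) {κ : Type*} [Fintype κ] [DecidableEq κ]
    (a : κ → Fin d) (ha : Function.Injective a) (b : κ → Finset (Fin n))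
    (hb : Function.Injective b) (hbE : ∀ x, b x ∈ E) (hbv : ∀ x, v ∈ b x) :
    (Matrix.of fun x x' : κ =>
      (∏ i ∈ (b x').erase v, X (i, a x) : MvPolynomial (Fin n × Fin d) k)).det
      ∉ lssIdeal k E d := by
  classical
  intro hmem
  let p : Fin n × Fin d → k := fun y => if ∃ x, a x = y.2 ∧ y.1 ∈ (b x).erase v then 1 else 0
  have hp : ∀ x i, p (i, a x) = if i ∈ (b x).erase v then 1 else 0 := by
    intro x i
    simp only [p]
    congr 1
    apply propext
    constructor
    · rintro ⟨x', h1, h2⟩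
      rwa [← ha h1]
    · intro h
      exact ⟨x, rfl, h⟩
  have h0 := eval_eq_zero_of_mem p (fun A hA j => ?_) hmem
  · rw [RingHom.map_det] at h0
    have : (eval p).mapMatrix (Matrix.of fun x x' : κ =>
        (∏ i ∈ (b x').erase v, X (i, a x) : MvPolynomial (Fin n × Fin d) k)) = 1 := by
      ext x x'
      simp only [RingHom.mapMatrix_apply, Matrix.map_apply, Matrix.of_apply, map_prod, eval_X, hp]
      by_cases hx : x = x'
      · subst hx
        rw [Matrix.one_apply_eq]
        exact Finset.prod_eq_one fun i hi => if_pos hi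
      · rw [Matrix.one_apply_ne hx]
        have : ¬ ((b x').erase v ⊆ (b x).erase v) := by
          intro hsub
          have h2 : b x' ⊆ b x := by
            intro i hi
            by_cases hiv : i = v
            · rw [hiv]; exact hbv x
            · exact Finset.mem_of_mem_erase (hsub (Finset.mem_erase.mpr ⟨hiv, hi⟩))
          exact hx (hb (hcl _ (hbE x') _ (hbE x) h2)).symm
        obtain ⟨i, hi, hi'⟩ := Finset.not_subset.mp this
        exact Finset.prod_eq_zero hi (if_neg hi')
    rw [this, Matrix.det_one] at h0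
    exact one_ne_zero h0
  · by_cases hj : ∃ x, a x = j
    · obtain ⟨x, rfl⟩ := hj
      have : ¬ (A ⊆ (b x).erase v) := by
        intro hsub
        have h2 : A = b x := hcl _ hA _ (hbE x) (hsub.trans (Finset.erase_subset _ _))
        have := hsub (h2 ▸ hbv x)
        simp at this
      obtain ⟨i, hi, hi'⟩ := Finset.not_subset.mp this
      exact ⟨i, hi, by rw [hp, if_neg hi']⟩
    · obtain ⟨i, hi⟩ := hne A hA
      refine ⟨i, hi, if_neg ?_⟩
      rintro ⟨x, h1, -⟩
      exact hj ⟨x, h1⟩

lemma pderiv_lssGen {d : ℕ} (B : Finset (Fin n)) (v : Fin n) (j : Fin d) :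
    pderiv (v, j) (lssGen k d B) = if v ∈ B then ∏ i ∈ B.erase v, X (i, j) else 0 := by
  have key : ∀ (s : Finset (Fin n)) (j' : Fin d), (v ∉ s ∨ j' ≠ j) →
      pderiv (v, j) (∏ i ∈ s, X (i, j') : MvPolynomial (Fin n × Fin d) k) = 0 := by
    intro s j' h
    induction s using Finset.induction_on with
    | empty => simp
    | insert i s hi ih =>
      rw [Finset.prod_insert hi, pderiv_mul, ih, pderiv_X_of_ne]
      · simp
      · rintro e
        obtain ⟨e1, e2⟩ := Prod.mk.inj e
        rcases h with h | h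
        · exact h (e1 ▸ Finset.mem_insert_self _ _)
        · exact h e2
      · rcases h with h | h
        · exact Or.inl fun hv => h (Finset.mem_insert_of_mem hv)
        · exact Or.inr h
  rw [lssGen, map_sum, Finset.sum_eq_single j]
  · split_ifs with hv
    · rw [← Finset.mul_prod_erase B _ hv, pderiv_mul, key _ _ (Or.inl (Finset.notMem_erase _ _))]
      simp
    · exact key _ _ (Or.inl hv)
  · intro j' _ hj'
    exact key _ _ (Or.inr hj')
  · simp

theorem jacobian_indep {d : ℕ} (hd : 1 ≤ d) {E : Set (Finset (Fin n))}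
    (hne : ∀ A ∈ E, A.Nonempty) (hcl : ∀ A ∈ E, ∀ B ∈ E, A ⊆ B → A = B)
    {K : Type*} [Field K] (π : MvPolynomial (Fin n × Fin d) k →+* K)
    (hker : ∀ r, π r = 0 ↔ r ∈ lssIdeal k E d) [Fintype E] (c : E → K)
    (hc : ∀ y, ∑ B, c B * π (pderiv y (lssGen k d B)) = 0) : c = 0 := by
  classical
  funext A
  obtain ⟨v, hv⟩ := hne A A.2
  let κ := {B : E // v ∈ (B : Finset (Fin n))}
  have hsum : ∀ j : Fin d, ∑ B : κ, π (∏ i ∈ (B.1 : Finset (Fin n)).erase v, X (i, j)) * c B.1
      = 0 := by
    intro j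
    rw [← hc (v, j)]
    simp only [pderiv_lssGen]
    rw [← Finset.sum_subtype (Finset.univ.filter fun B : E => v ∈ (B : Finset (Fin n)))
      (p := fun B : E => v ∈ (B : Finset (Fin n))) (by simp)
      (fun B : E => π (∏ i ∈ (B : Finset (Fin n)).erase v, X (i, j)) * c B), Finset.sum_filter]
    refine Finset.sum_congr rfl fun B _ => ?_
    split_ifs
    · ring
    · simp
  rcases le_or_gt (Fintype.card κ) d with hle | hlt
  · obtain ⟨a⟩ : Nonempty (κ ↪ Fin d) :=
      Function.Embedding.nonempty_of_card_le (by simpa using hle)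
    have hdet := det_not_mem (k := k) hne hcl v a a.injective
      (fun B : κ => (B.1 : Finset (Fin n))) (fun B B' h => Subtype.ext (Subtype.ext h))
      (fun B => B.1.2) (fun B => B.2)
    rw [← hker, RingHom.map_det] at hdet
    have h0 := Matrix.eq_zero_of_mulVec_eq_zero hdet (v := fun B : κ => c B.1) (by
      funext x
      simpa [Matrix.mulVec, dotProduct] using hsum (a x))
    exact congrFun h0 ⟨A, hv⟩
  · exfalso
    obtain ⟨b⟩ : Nonempty (Fin d ↪ κ) :=
      Function.Embedding.nonempty_of_card_le (by simpa using hlt.le)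
    have hdet := det_not_mem (k := k) hne hcl v id Function.injective_id
      (fun x : Fin d => ((b x).1 : Finset (Fin n)))
      (fun x x' h => b.injective (Subtype.ext (Subtype.ext h)))
      (fun x => (b x).1.2) (fun x => (b x).2)
    rw [← hker, RingHom.map_det] at hdet
    have h0 := Matrix.eq_zero_of_vecMul_eq_zero hdet (v := fun j : Fin d => π (X (v, j))) (by
      funext x
      have h1 : π (lssGen k d ((b x).1 : Finset (Fin n))) = 0 :=
        (hker _).mpr (Ideal.subset_span ⟨_, (b x).1.2, rfl⟩)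
      rw [lssGen, map_sum] at h1
      simp only [Matrix.vecMul, dotProduct, RingHom.mapMatrix_apply, Matrix.map_apply,
        Matrix.of_apply, id, Pi.zero_apply]
      rw [← h1]
      refine Finset.sum_congr rfl fun j _ => ?_
      rw [← map_mul, Finset.mul_prod_erase _ (fun i => X (i, j)) (b x).2])
    have h1 : (X (v, ⟨0, hd⟩) : MvPolynomial (Fin n × Fin d) k) ∈ lssIdeal k E d :=
      (hker _).mp (congrFun h0 ⟨0, hd⟩)
    have h2 := eval_eq_zero_of_mem (fun y : Fin n × Fin d => if y.1 = v then (1 : k) else 0)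
      (fun B hB j => ?_) h1
    · simp at h2
    · by_contra hcon
      push Not at hcon
      have hsub : B ⊆ {v} := by
        intro i hi
        have := hcon i hi
        simp only [ne_eq, ite_eq_right_iff, one_ne_zero, imp_false, not_not] at this
        simp [this]
      have hall : ∀ x : κ, (x.1 : Finset (Fin n)) = B := fun x =>
        (hcl _ hB _ x.1.2 (hsub.trans (Finset.singleton_subset_iff.mpr x.2))).symm
      have : Fintype.card κ ≤ 1 := Fintype.card_le_one_iff.mpr fun x x' =>
        Subtype.ext (Subtype.ext ((hall x).trans (hall x').symm))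
      omega

lemma exists_dual {ι τ K : Type*} [Field K] [Fintype ι] [DecidableEq ι] [Fintype τ]
    [DecidableEq τ] (M : ι → τ → K)
    (h : ∀ c : ι → K, (∀ y, ∑ B, c B * M B y = 0) → c = 0) :
    ∃ w : ι → τ → K, ∀ A B, ∑ y, M B y * w A y = if A = B then 1 else 0 := by
  have hinj : LinearMap.ker (Matrix.vecMulLinear (Matrix.of M)) = ⊥ := by
    rw [LinearMap.ker_eq_bot']
    intro c hc
    refine h c fun y => ?_
    simpa [Matrix.vecMul, dotProduct] using congrFun hc y
  obtain ⟨g, hg⟩ := LinearMap.exists_leftInverse_of_injective _ hinj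
  refine ⟨fun A y => g (Pi.single y 1) A, fun A B => ?_⟩
  have h1 : g (M B) = Pi.single B 1 := by
    have := LinearMap.congr_fun hg (Pi.single B 1)
    simpa [Matrix.single_one_vecMul] using this
  have h2 : M B = ∑ y, M B y • (Pi.single y 1 : τ → K) := by
    funext y
    simp [Finset.sum_apply, Pi.single_apply]
  have h3 := congrFun h1 A
  rw [h2, map_sum] at h3
  simp only [map_smul, Finset.sum_apply, Pi.smul_apply, smul_eq_mul] at h3
  rw [h3, Pi.single_apply]

lemma lssGen_isHomogeneous (d : ℕ) (A : Finset (Fin n)) :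
    (lssGen k d A).IsHomogeneous A.card := by
  refine IsHomogeneous.sum _ _ _ fun j _ => ?_
  have := IsHomogeneous.prod A (fun i => (X (i, j) : MvPolynomial (Fin n × Fin d) k)) (fun _ => 1)
    (fun i _ => isHomogeneous_X k _)
  simpa using this

lemma mem_of_forall_mem_sup {σ : Type*} {I : Ideal (MvPolynomial σ k)}
    (hI : ∀ g ∈ I, ∀ j, homogeneousComponent j g ∈ I) {g : MvPolynomial σ k}
    (hg : ∀ N : ℕ, g ∈ I ⊔ idealOfVars σ k ^ N) : g ∈ I := by
  obtain ⟨a, ha, b, hb, e⟩ := Submodule.mem_sup.mp (hg (g.totalDegree + 1))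
  rw [← sum_homogeneousComponent g]
  refine Ideal.sum_mem _ fun j hj => ?_
  have hb0 : homogeneousComponent j b = 0 := by
    rw [mem_pow_idealOfVars_iff'] at hb
    ext x
    rw [coeff_homogeneousComponent, coeff_zero]
    split_ifs with hx
    · exact hb x (by rw [hx]; exact Finset.mem_range.mp hj)
    · rfl
  rw [← e, map_add, hb0, add_zero]
  exact hI a ha j

attribute [local instance] MvPolynomial.gradedAlgebra in
lemma lssIdeal_homogeneous (E : Set (Finset (Fin n))) (d : ℕ) :
    ∀ g ∈ lssIdeal k E d, ∀ j, homogeneousComponent j g ∈ lssIdeal k E d := by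
  intro g hg j
  have hI : (lssIdeal k E d).IsHomogeneous (homogeneousSubmodule (Fin n × Fin d) k) := by
    refine Ideal.homogeneous_span _ _ ?_
    rintro _ ⟨A, -, rfl⟩
    exact ⟨A.card, lssGen_isHomogeneous d A⟩
  exact homogeneousComponent_mem_of_mem hI hg j

/-- `S_{d+1} → S_d[z]`. -/
noncomputable def toT (k : Type*) [Field k] (n d : ℕ) :
    MvPolynomial (Fin n × Fin (d + 1)) k →ₐ[k]
      MvPolynomial (Fin n) (MvPolynomial (Fin n × Fin d) k) :=
  aeval fun y => Fin.lastCases (motive := fun _ => _) (X y.1) (fun j => C (X (y.1, j))) y.2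

/-- `S_d[z] → S_{d+1}`. -/
noncomputable def ofT (k : Type*) [Field k] (n d : ℕ) :
    MvPolynomial (Fin n) (MvPolynomial (Fin n × Fin d) k) →+*
      MvPolynomial (Fin n × Fin (d + 1)) k :=
  eval₂Hom (rename fun y : Fin n × Fin d => (y.1, y.2.castSucc)).toRingHom
    fun i => X (i, Fin.last d)

lemma ofT_toT {d : ℕ} (g : MvPolynomial (Fin n × Fin (d + 1)) k) :
    ofT k n d (toT k n d g) = g := by
  have : (ofT k n d).comp (toT k n d).toRingHom = RingHom.id _ := by
    refine MvPolynomial.ringHom_ext (fun r => ?_) (fun y => ?_)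
    · simp [ofT, toT]
    · obtain ⟨i, j⟩ := y
      induction j using Fin.lastCases with
      | last => simp [ofT, toT]
      | cast j => simp [ofT, toT]
  exact RingHom.congr_fun this g

lemma toT_ofT {d : ℕ} (g : MvPolynomial (Fin n) (MvPolynomial (Fin n × Fin d) k)) :
    toT k n d (ofT k n d g) = g := by
  have : (toT k n d).toRingHom.comp (ofT k n d) = RingHom.id _ := by
    refine MvPolynomial.ringHom_ext' ?_ (fun i => ?_)
    · refine MvPolynomial.ringHom_ext (fun r => ?_) (fun y => ?_)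
      · simp [ofT, toT]
      · simp [ofT, toT]
    · simp [ofT, toT]
  exact RingHom.congr_fun this g

lemma toT_lssGen {d : ℕ} (A : Finset (Fin n)) :
    toT k n d (lssGen k (d + 1) A) = C (lssGen k d A) + ∏ i ∈ A, X i := by
  simp [lssGen, toT, Fin.sum_univ_castSucc]

lemma prod_X_mem {σ R : Type*} [CommRing R] {A : Finset σ} (hA : A.Nonempty) :
    (∏ i ∈ A, X i : MvPolynomial σ R) ∈ idealOfVars σ R := by
  obtain ⟨i, hi⟩ := hA
  exact Ideal.prod_mem _ hi (Ideal.subset_span ⟨i, rfl⟩)

lemma span_range_lssGen (E : Set (Finset (Fin n))) (d : ℕ) :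
    Ideal.span (Set.range fun A : E => lssGen k d (A : Finset (Fin n))) = lssIdeal k E d := by
  rw [lssIdeal, Set.image_eq_range]

/-- The image of `L(d+1)` in `S_d[z]`. -/
noncomputable def defIdeal (k : Type*) [Field k] {n : ℕ} (E : Set (Finset (Fin n))) (d : ℕ) :
    Ideal (MvPolynomial (Fin n) (MvPolynomial (Fin n × Fin d) k)) :=
  Ideal.span (Set.range fun A : E =>
    C (lssGen k d (A : Finset (Fin n))) + ∏ i ∈ (A : Finset (Fin n)), X i)

lemma toT_mem {d : ℕ} {E : Set (Finset (Fin n))} {g : MvPolynomial (Fin n × Fin (d + 1)) k}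
    (hg : g ∈ lssIdeal k E (d + 1)) : toT k n d g ∈ defIdeal k E d := by
  have : lssIdeal k E (d + 1) ≤ (defIdeal k E d).comap (toT k n d) := by
    rw [← span_range_lssGen, Ideal.span_le]
    rintro _ ⟨A, rfl⟩
    change toT k n d (lssGen k (d + 1) A) ∈ defIdeal k E d
    rw [toT_lssGen]
    exact Ideal.subset_span ⟨A, rfl⟩
  exact this hg

lemma ofT_mem {d : ℕ} {E : Set (Finset (Fin n))}
    {g : MvPolynomial (Fin n) (MvPolynomial (Fin n × Fin d) k)}
    (hg : g ∈ defIdeal k E d) : ofT k n d g ∈ lssIdeal k E (d + 1) := by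
  have : defIdeal k E d ≤ (lssIdeal k E (d + 1)).comap (ofT k n d) := by
    rw [defIdeal, Ideal.span_le]
    rintro _ ⟨A, rfl⟩
    rw [SetLike.mem_coe, Ideal.mem_comap]
    beta_reduce
    rw [← toT_lssGen, ofT_toT]
    exact Ideal.subset_span ⟨A, A.2, rfl⟩
  exact this hg

lemma defIdeal_sep {d : ℕ} {E : Set (Finset (Fin n))}
    (g : MvPolynomial (Fin n) (MvPolynomial (Fin n × Fin d) k))
    (hg : ∀ N : ℕ, g ∈ defIdeal k E d ⊔ idealOfVars (Fin n) (MvPolynomial (Fin n × Fin d) k) ^ N) :
    g ∈ defIdeal k E d := by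
  rw [← toT_ofT g]
  refine toT_mem (mem_of_forall_mem_sup (lssIdeal_homogeneous E (d + 1)) fun N => ?_)
  obtain ⟨a, ha, b, hb, rfl⟩ := Submodule.mem_sup.mp (hg N)
  rw [map_add]
  refine add_mem (Ideal.mem_sup_left (ofT_mem ha)) (Ideal.mem_sup_right ?_)
  have hm : idealOfVars (Fin n) (MvPolynomial (Fin n × Fin d) k)
      ≤ (idealOfVars (Fin n × Fin (d + 1)) k).comap (ofT k n d) := by
    rw [Ideal.span_le]
    rintro _ ⟨i, rfl⟩
    change ofT k n d (X i) ∈ idealOfVars (Fin n × Fin (d + 1)) k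
    have : ofT k n d (X i) = X (i, Fin.last d) := by simp [ofT]
    rw [this]
    exact Ideal.subset_span ⟨_, rfl⟩
  exact Ideal.le_comap_pow _ N (Ideal.pow_right_mono hm N hb)

lemma lssIdeal_succ_eq_comap (E : Set (Finset (Fin n))) (d : ℕ) :
    lssIdeal k E (d + 1) = (defIdeal k E d).comap (toT k n d) := by
  ext g
  refine ⟨toT_mem, fun hg => ?_⟩
  have := ofT_mem (Ideal.mem_comap.mp hg)
  rwa [ofT_toT] at this

theorem defIdeal_isPrime {d : ℕ} (hd : 1 ≤ d) {E : Set (Finset (Fin n))}
    (hne : ∀ A ∈ E, A.Nonempty) (hcl : ∀ A ∈ E, ∀ B ∈ E, A ⊆ B → A = B)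
    {K : Type*} [Field K] [Algebra k K] (π : MvPolynomial (Fin n × Fin d) k →ₐ[k] K)
    (hker : ∀ r, π r = 0 ↔ r ∈ lssIdeal k E d) : (defIdeal k E d).IsPrime := by
  classical
  let _ : Fintype E := Fintype.ofFinite E
  obtain ⟨w, hw⟩ := exists_dual
    (fun (B : E) y => π (pderiv y (lssGen k d (B : Finset (Fin n)))))
    (fun c hc => jacobian_indep hd hne hcl π.toRingHom hker c hc)
  refine isPrime_of_deform (K := K) π.toRingHom (fun A : E => lssGen k d (A : Finset (Fin n)))
    (fun r hr => ?_) (fun A : E => ∏ i ∈ (A : Finset (Fin n)), X i)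
    (fun A => prod_X_mem (hne A A.2)) (fun N => ?_) defIdeal_sep
  · rw [span_range_lssGen]
    exact (hker r).mp hr
  · obtain ⟨v, hv1, hv2⟩ := exists_newton (σ := Fin n) π
      (fun A : E => lssGen k d (A : Finset (Fin n)))
      (fun A => (hker _).mpr (Ideal.subset_span ⟨A, A.2, rfl⟩)) w hw
      (fun A => ∏ i ∈ (A : Finset (Fin n)), X i) (fun A => prod_X_mem (hne A A.2)) N
    refine ⟨eval₂Hom (aeval v : MvPolynomial (Fin n × Fin d) k →ₐ[k]
      MvPolynomial (Fin n) K).toRingHom X, fun i => by simp, fun r => ?_, fun A => ?_⟩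
    · have hπ : aeval (fun y => (C (π (X y)) : MvPolynomial (Fin n) K)) r = C (π r) := by
        have : (aeval (fun y => (C (π (X y)) : MvPolynomial (Fin n) K)) :
              MvPolynomial (Fin n × Fin d) k →ₐ[k] _)
            = (IsScalarTower.toAlgHom k K (MvPolynomial (Fin n) K)).comp π := by
          ext y : 1
          simp
        rw [this]
        simp
      have := aeval_sub_mem _ _ _ hv1 r
      rw [hπ] at this
      simpa using this
    · have := Ideal.pow_le_pow_right (Nat.le_succ N) (hv2 A)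
      simpa using this

theorem isPrime_succ {d : ℕ} (hd : 1 ≤ d) {E : Set (Finset (Fin n))}
    (hne : ∀ A ∈ E, A.Nonempty) (hcl : ∀ A ∈ E, ∀ B ∈ E, A ⊆ B → A = B)
    (hp : (lssIdeal k E d).IsPrime) : (lssIdeal k E (d + 1)).IsPrime := by
  have hJ : (defIdeal k E d).IsPrime := by
    refine defIdeal_isPrime hd hne hcl
      (K := FractionRing (MvPolynomial (Fin n × Fin d) k ⧸ lssIdeal k E d))
      ((IsScalarTower.toAlgHom k (MvPolynomial (Fin n × Fin d) k ⧸ lssIdeal k E d) _).comp
        (Ideal.Quotient.mkₐ k (lssIdeal k E d))) fun r => ?_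
    simp [Ideal.Quotient.eq_zero_iff_mem]
  rw [lssIdeal_succ_eq_comap]
  exact Ideal.comap_isPrime _ _

end Pool.Agent.Lib.MP_3122b6_ag
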