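import Mathlib
import Pool.Agent.Lib.MP_3122b6_ag.Defs
import Pool.Agent.Lib.MP_3122b6_ag.Prime

open MvPolynomial RingTheory.Sequence

namespace Pool.Agent.Lib.MP_3122b6_ag

section General

variable {R : Type*} [CommRing R]

lemma wr_snoc (l : List R) (x : R) :
    IsWeaklyRegular R (l ++ [x]) ↔
      IsWeaklyRegular R l ∧ ∀ y, x * y ∈ Ideal.ofList l → y ∈ Ideal.ofList l := by
  rw [isWeaklyRegular_append_iff, isWeaklyRegular_singleton_iff,
    isSMulRegular_quotient_iff_mem_of_smul_mem]
  simp only [smul_eq_mul, Ideal.mul_top]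

lemma wr_prefix {l l' : List R} (h : IsWeaklyRegular R (l ++ l')) : IsWeaklyRegular R l :=
  ((isWeaklyRegular_append_iff R l l').1 h).1

lemma ofList_perm {l l' : List R} (h : l.Perm l') : Ideal.ofList l = Ideal.ofList l' :=
  congrArg Ideal.span (Set.ext fun _ => h.mem_iff)

lemma exists_unit_coeff [IsLocalRing R] (J : Ideal R) (g : List R) (f : R)
    (hf : f ∈ J ⊔ Ideal.ofList g) :
    f ∈ J ⊔ IsLocalRing.maximalIdeal R * Ideal.ofList g ∨
      ∃ x g' u, g.Perm (x :: g') ∧ IsUnit u ∧ f - u * x ∈ J ⊔ Ideal.ofList g' := by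
  induction g generalizing f with
  | nil =>
    left
    simpa using hf
  | cons y g ih =>
    rw [Ideal.ofList_cons, sup_left_comm] at hf
    obtain ⟨a, ha, b, hb, rfl⟩ := Submodule.mem_sup.1 hf
    obtain ⟨c, rfl⟩ := Ideal.mem_span_singleton'.1 ha
    by_cases hc : IsUnit c
    · right
      exact ⟨y, g, c, List.Perm.refl _, hc, by simpa using hb⟩
    · have hcm : c ∈ IsLocalRing.maximalIdeal R := hc
      rcases ih b hb with h | ⟨x, g', u, hp, hu, hm⟩
      · left
        refine add_mem (Ideal.mem_sup_right (Ideal.mul_mem_mul hcm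
          (Ideal.subset_span (by simp)))) ?_
        refine (sup_le_sup_left (Ideal.mul_mono_right ?_) J) h
        rw [Ideal.ofList_cons]
        exact le_sup_right
      · right
        refine ⟨x, y :: g', u, (hp.cons y).trans (List.Perm.swap _ _ _), hu, ?_⟩
        have e : c * y + b - u * x = c * y + (b - u * x) := by ring
        rw [e, Ideal.ofList_cons, sup_left_comm]
        exact add_mem (Ideal.mem_sup_left (Ideal.mul_mem_left _ _ (Ideal.subset_span rfl)))
          (Ideal.mem_sup_right hm)

/-- Exchange lemma: in a Noetherian local ring, elements of an ideal generated by a regular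
sequence that are independent modulo `𝔪 I` form a regular sequence. -/
lemma exchange [IsLocalRing R] [IsNoetherianRing R] (I : Ideal R)
    (hI : I ≤ IsLocalRing.maximalIdeal R) (q p g : List R)
    (hreg : IsWeaklyRegular R (p ++ g)) (hgen : Ideal.ofList (p ++ g) = I)
    (hq : ∀ q1 f q2, q = q1 ++ f :: q2 →
      f ∈ I ∧ f ∉ Ideal.ofList (p ++ q1) ⊔ IsLocalRing.maximalIdeal R * I) :
    IsWeaklyRegular R (p ++ q) := by
  induction q generalizing p g with
  | nil => simpa using wr_prefix hreg
  | cons f q ih =>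
    obtain ⟨hfI, hfn⟩ := hq [] f q rfl
    have hfI' : f ∈ Ideal.ofList p ⊔ Ideal.ofList g := by
      rwa [← Ideal.ofList_append, hgen]
    have hgI : Ideal.ofList g ≤ I := by
      rw [← hgen, Ideal.ofList_append]
      exact le_sup_right
    rcases exists_unit_coeff _ g f hfI' with h | ⟨x, g', u, hp, hu, hm⟩
    · exfalso
      apply hfn
      rw [List.append_nil]
      exact (sup_le_sup_left (Ideal.mul_mono_right hgI) _) h
    · rw [← Ideal.ofList_append] at hm
      have hp1 : (p ++ g).Perm ((p ++ g') ++ [x]) := by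
        rw [List.append_assoc]
        exact List.Perm.append_left p (hp.trans (List.perm_append_singleton x g').symm)
      have hmem : ∀ r ∈ p ++ g, r ∈ IsLocalRing.maximalIdeal R := fun r hr =>
        hI (hgen ▸ Ideal.subset_span hr)
      have h1 := IsLocalRing.isWeaklyRegular_of_perm_of_subset_maximalIdeal hreg hp1 hmem
      rw [wr_snoc] at h1
      have h2 : IsWeaklyRegular R ((p ++ g') ++ [f]) := by
        rw [wr_snoc]
        refine ⟨h1.1, fun y hy => h1.2 y ?_⟩
        have e : u * (x * y) = f * y - (f - u * x) * y := by ring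
        have : u * (x * y) ∈ Ideal.ofList (p ++ g') := by
          rw [e]
          exact sub_mem hy (Ideal.mul_mem_right _ _ hm)
        exact (Ideal.unit_mul_mem_iff_mem _ hu).1 this
      have hgen2 : Ideal.ofList ((p ++ g') ++ [f]) = I := by
        rw [← hgen, ofList_perm hp1]
        apply le_antisymm
        · rw [Ideal.ofList_append (p ++ g') [f], Ideal.ofList_singleton, sup_le_iff,
            Ideal.span_singleton_le_iff_mem]
          refine ⟨by rw [Ideal.ofList_append (p ++ g') [x]]; exact le_sup_left, ?_⟩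
          rw [← ofList_perm hp1, hgen]
          exact hfI
        · rw [Ideal.ofList_append (p ++ g') [x], Ideal.ofList_singleton, sup_le_iff,
            Ideal.span_singleton_le_iff_mem]
          refine ⟨by rw [Ideal.ofList_append (p ++ g') [f]]; exact le_sup_left, ?_⟩
          rw [← Ideal.unit_mul_mem_iff_mem _ hu]
          have e : u * x = f - (f - u * x) := by ring
          rw [e, Ideal.ofList_append (p ++ g') [f]]
          exact sub_mem (Ideal.mem_sup_right (Ideal.subset_span (by simp)))
            (Ideal.mem_sup_left hm)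
      have hp2 : ((p ++ g') ++ [f]).Perm ((p ++ [f]) ++ g') := by
        rw [List.append_assoc, List.append_assoc]
        exact List.Perm.append_left p List.perm_append_comm
      have h3 := IsLocalRing.isWeaklyRegular_of_perm_of_subset_maximalIdeal h2 hp2
        (fun r hr => hI (hgen2 ▸ Ideal.subset_span hr))
      have := ih (p ++ [f]) g' h3 (by rw [← ofList_perm hp2, hgen2]) (fun q1 f' q2 e => by
        have := hq (f :: q1) f' q2 (by rw [e]; rfl)
        simpa [List.append_assoc] using this)
      simpa [List.append_assoc] using this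

/-- Lifting a regular sequence along a surjection whose kernel is generated by a regular
sequence. -/
lemma wr_lift {T : Type*} [CommRing T] (π : T →+* R) (hπ : Function.Surjective π)
    (zs : List T) (hz : IsWeaklyRegular T zs) (hker : RingHom.ker π = Ideal.ofList zs)
    (l : List T) (hl : IsWeaklyRegular R (l.map π)) : IsWeaklyRegular T (zs ++ l) := by
  induction l using List.reverseRecOn with
  | nil => simpa using hz
  | append_singleton l x ih =>
    rw [List.map_append, List.map_singleton, wr_snoc] at hl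
    rw [← List.append_assoc, wr_snoc]
    have key : ∀ y, y ∈ Ideal.ofList (zs ++ l) ↔ π y ∈ Ideal.ofList (l.map π) := by
      intro y
      rw [← Ideal.map_ofList, ← Ideal.mem_comap, Ideal.comap_map_of_surjective _ hπ,
        ← RingHom.ker_eq_comap_bot, hker, Ideal.ofList_append, sup_comm]
    refine ⟨ih hl.1, fun y hy => ?_⟩
    rw [key] at hy ⊢
    rw [map_mul] at hy
    exact hl.2 _ hy

lemma wr_vars {σ : Type*} (vs : List σ) (hv : vs.Nodup) :
    IsWeaklyRegular (MvPolynomial σ R) (vs.map (X : σ → MvPolynomial σ R)) := by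
  classical
  induction vs using List.reverseRecOn with
  | nil => simp
  | append_singleton l v ih =>
    rw [List.nodup_append] at hv
    rw [List.map_append, List.map_singleton, wr_snoc]
    refine ⟨ih hv.1, fun y hy => ?_⟩
    have e : Ideal.ofList (l.map (X : σ → MvPolynomial σ R))
        = Ideal.span (X '' {i | i ∈ l}) := by
      refine congrArg Ideal.span (Set.ext fun r => ?_)
      simp only [Set.mem_ofPred_eq, List.mem_map, Set.mem_image]
    rw [e, mem_ideal_span_X_image] at hy ⊢
    intro m hm
    have hm' : Finsupp.single v 1 + m ∈ (X v * y).support := by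
      rw [mem_support_iff, coeff_X_mul]
      exact mem_support_iff.1 hm
    obtain ⟨i, hi, h0⟩ := hy _ hm'
    refine ⟨i, hi, ?_⟩
    have hne : i ≠ v := hv.2.2 i hi v (by simp)
    simpa [Finsupp.single_apply, hne.symm] using h0

end General

variable {k : Type*} [Field k]

/-- The ideal of the origin. -/
noncomputable def origin (σ : Type*) (k : Type*) [Field k] : Ideal (MvPolynomial σ k) :=
  RingHom.ker (constantCoeff : MvPolynomial σ k →+* k)

instance origin_isPrime (σ : Type*) : (origin σ k).IsPrime := RingHom.ker_isPrime _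

lemma mem_origin {σ : Type*} {g : MvPolynomial σ k} : g ∈ origin σ k ↔ constantCoeff g = 0 :=
  Iff.rfl

lemma origin_le_vars {σ : Type*} : origin σ k ≤ idealOfVars σ k := by
  intro g hg
  rw [← pow_one (idealOfVars σ k), mem_pow_idealOfVars_iff']
  intro x hx
  have : x = 0 := (Finsupp.degree_eq_zero_iff x).1 (by simpa using hx)
  rw [this]
  exact hg

lemma mem_of_mul_mem {σ : Type*} {J : Ideal (MvPolynomial σ k)}
    (hJ : ∀ g ∈ J, ∀ j, homogeneousComponent j g ∈ J) {s h : MvPolynomial σ k}
    (hs : s ∉ origin σ k) (hh : s * h ∈ J) : h ∈ J := by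
  refine mem_of_forall_mem_sup hJ fun N => ?_
  have hc : constantCoeff s ≠ 0 := hs
  have hm : s - C (constantCoeff s) ∈ idealOfVars σ k :=
    origin_le_vars (by rw [mem_origin]; simp)
  induction N with
  | zero => simp
  | succ N ih =>
    have hu : IsUnit (C (constantCoeff s) : MvPolynomial σ k) :=
      (IsUnit.mk0 _ hc).map C
    rw [← Ideal.unit_mul_mem_iff_mem _ hu]
    have e : C (constantCoeff s) * h = s * h - (s - C (constantCoeff s)) * h := by ring
    rw [e]
    refine sub_mem (Ideal.mem_sup_left hh) ?_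
    obtain ⟨a, ha, b, hb, rfl⟩ := Submodule.mem_sup.1 ih
    rw [mul_add]
    refine add_mem (Ideal.mem_sup_left (Ideal.mul_mem_left _ _ ha)) (Ideal.mem_sup_right ?_)
    rw [pow_succ']
    exact Ideal.mul_mem_mul hm hb

attribute [local instance] MvPolynomial.gradedAlgebra in
lemma ofList_homogeneous {σ : Type*} (l : List (MvPolynomial σ k))
    (hl : ∀ x ∈ l, ∃ m, x.IsHomogeneous m) :
    ∀ g ∈ Ideal.ofList l, ∀ j, homogeneousComponent j g ∈ Ideal.ofList l := by
  intro g hg j
  have hI : (Ideal.ofList l).IsHomogeneous (homogeneousSubmodule σ k) :=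
    Ideal.homogeneous_span _ _ fun x hx => hl x hx
  exact homogeneousComponent_mem_of_mem hI hg j

/-- Homogeneous elements that form a regular sequence at the origin form a regular sequence. -/
lemma wr_descend {σ : Type*} (l : List (MvPolynomial σ k))
    (hl : ∀ x ∈ l, ∃ m, x.IsHomogeneous m)
    (h : IsWeaklyRegular (Localization.AtPrime (origin σ k))
      (l.map (algebraMap _ (Localization.AtPrime (origin σ k))))) :
    IsWeaklyRegular (MvPolynomial σ k) l := by
  induction l using List.reverseRecOn with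
  | nil => simp
  | append_singleton l x ih =>
    rw [List.map_append, List.map_singleton, wr_snoc] at h
    have hl' : ∀ x ∈ l, ∃ m, x.IsHomogeneous m := fun y hy => hl y (by simp [hy])
    rw [wr_snoc]
    refine ⟨ih hl' h.1, fun y hy => ?_⟩
    have h1 := h.2 (algebraMap _ _ y) (by
      rw [← map_mul, ← Ideal.map_ofList]
      exact Ideal.mem_map_of_mem _ hy)
    rw [← Ideal.map_ofList,
      IsLocalization.algebraMap_mem_map_algebraMap_iff (origin σ k).primeCompl] at h1
    obtain ⟨s, hs, hsy⟩ := h1
    exact mem_of_mul_mem (ofList_homogeneous l hl') hs hsy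

variable {n : ℕ}

lemma lssGen_mem_origin (d : ℕ) {A : Finset (Fin n)} (hA : A.Nonempty) :
    lssGen k d A ∈ origin (Fin n × Fin d) k := by
  rw [lssGen]
  refine Ideal.sum_mem _ fun j _ => ?_
  obtain ⟨i, hi⟩ := hA
  exact Ideal.prod_mem _ hi (by rw [mem_origin]; simp)

lemma lssIdeal_le_origin (d : ℕ) {E : Set (Finset (Fin n))} (hne : ∀ A ∈ E, A.Nonempty) :
    lssIdeal k E d ≤ origin (Fin n × Fin d) k := by
  rw [lssIdeal, Ideal.span_le]
  rintro _ ⟨A, hA, rfl⟩
  exact lssGen_mem_origin d (hne A hA)

/-- The curve `y_{i,j₀} = t` for `i ∈ A`, all other coordinates zero. -/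
noncomputable def curve (k : Type*) [Field k] {d : ℕ} (j₀ : Fin d) (A : Finset (Fin n)) :
    MvPolynomial (Fin n × Fin d) k →ₐ[k] Polynomial k :=
  aeval fun y => if y.1 ∈ A ∧ y.2 = j₀ then Polynomial.X else 0

lemma curve_lssGen_self {d : ℕ} (j₀ : Fin d) {A : Finset (Fin n)} (hA : A.Nonempty) :
    curve k j₀ A (lssGen k d A) = Polynomial.X ^ A.card := by
  rw [lssGen, map_sum, Finset.sum_eq_single j₀]
  · rw [map_prod, Finset.prod_congr rfl (g := fun _ => Polynomial.X)]
    · simp
    · intro i hi
      simp [curve, hi]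
  · intro j _ hj
    obtain ⟨i, hi⟩ := hA
    rw [map_prod]
    exact Finset.prod_eq_zero hi (by simp [curve, hj])
  · simp

lemma curve_lssGen_of_not_subset {d : ℕ} (j₀ : Fin d) {A B : Finset (Fin n)} (h : ¬ B ⊆ A) :
    curve k j₀ A (lssGen k d B) = 0 := by
  obtain ⟨i, hi, hi'⟩ := Finset.not_subset.1 h
  rw [lssGen, map_sum]
  refine Finset.sum_eq_zero fun j _ => ?_
  rw [map_prod]
  exact Finset.prod_eq_zero hi (by simp [curve, hi'])

lemma eval_curve {d : ℕ} (j₀ : Fin d) (A : Finset (Fin n)) (g : MvPolynomial (Fin n × Fin d) k) :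
    (curve k j₀ A g).coeff 0 = constantCoeff g := by
  have : (Polynomial.constantCoeff : Polynomial k →+* k).comp (curve k j₀ A).toRingHom
      = constantCoeff := by
    refine MvPolynomial.ringHom_ext (fun r => ?_) (fun y => ?_)
    · simp [curve]
    · simp only [curve, AlgHom.toRingHom_eq_coe, RingHom.coe_comp, RingHom.coe_coe,
        Function.comp_apply, aeval_X, constantCoeff_X]
      split_ifs <;> simp
  exact RingHom.congr_fun this g

lemma lssGen_indep {d : ℕ} (hd : 1 ≤ d) {E : Set (Finset (Fin n))}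
    (hne : ∀ A ∈ E, A.Nonempty) (hcl : ∀ A ∈ E, ∀ B ∈ E, A ⊆ B → A = B)
    {A : Finset (Fin n)} (hA : A ∈ E) (l : List (Finset (Fin n))) (hl : ∀ B ∈ l, B ∈ E)
    (hAl : A ∉ l) {s : MvPolynomial (Fin n × Fin d) k} (hs : s ∉ origin (Fin n × Fin d) k) :
    s * lssGen k d A ∉ Ideal.ofList (l.map (lssGen k d)) ⊔
      origin (Fin n × Fin d) k * lssIdeal k E d := by
  intro hmem
  let φ := curve k (⟨0, hd⟩ : Fin d) A
  have h1 : Ideal.ofList (l.map (lssGen k d)) ≤
      (Ideal.span {(Polynomial.X : Polynomial k) ^ (A.card + 1)}).comap φ := by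
    rw [Ideal.span_le]
    intro x hx
    obtain ⟨B, hB, rfl⟩ := List.mem_map.1 hx
    have : φ (lssGen k d B) = 0 :=
      curve_lssGen_of_not_subset _ fun h => hAl (hcl B (hl B hB) A hA h ▸ hB)
    rw [SetLike.mem_coe, Ideal.mem_comap, this]
    exact zero_mem _
  have h2 : lssIdeal k E d ≤
      (Ideal.span {(Polynomial.X : Polynomial k) ^ A.card}).comap φ := by
    rw [lssIdeal, Ideal.span_le]
    rintro _ ⟨B, hB, rfl⟩
    rw [SetLike.mem_coe, Ideal.mem_comap]
    by_cases h : B ⊆ A
    · rw [hcl B hB A hA h, curve_lssGen_self _ (hne A hA)]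
      exact Ideal.subset_span rfl
    · rw [curve_lssGen_of_not_subset _ h]
      exact zero_mem _
  have h3 : origin (Fin n × Fin d) k * lssIdeal k E d ≤
      (Ideal.span {(Polynomial.X : Polynomial k) ^ (A.card + 1)}).comap φ := by
    rw [Ideal.mul_le]
    intro a ha b hb
    rw [Ideal.mem_comap, map_mul, Ideal.mem_span_singleton, pow_succ']
    refine mul_dvd_mul ?_ (Ideal.mem_span_singleton.1 (h2 hb))
    rw [Polynomial.X_dvd_iff, eval_curve]
    exact ha
  have h4 := (sup_le h1 h3) hmem
  rw [Ideal.mem_comap, map_mul, curve_lssGen_self _ (hne A hA), Ideal.mem_span_singleton,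
    pow_succ', mul_dvd_mul_iff_right (pow_ne_zero _ Polynomial.X_ne_zero), Polynomial.X_dvd_iff,
    eval_curve] at h4
  exact hs h4

lemma ofList_lssGen (d : ℕ) {E : Set (Finset (Fin n))} (l : List (Finset (Fin n)))
    (hl : ∀ B, B ∈ l ↔ B ∈ E) : Ideal.ofList (l.map (lssGen k d)) = lssIdeal k E d := by
  refine congrArg Ideal.span (Set.ext fun x => ?_)
  simp only [Set.mem_ofPred_eq, List.mem_map, hl, Set.mem_image]

/-- If `L(d)` is generated by a regular sequence then the `f_A` form a regular sequence. -/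
theorem wr_lssGen {d : ℕ} (hd : 1 ≤ d) {E : Set (Finset (Fin n))}
    (hne : ∀ A ∈ E, A.Nonempty) (hcl : ∀ A ∈ E, ∀ B ∈ E, A ⊆ B → A = B)
    (l : List (Finset (Fin n))) (hl : ∀ B ∈ l, B ∈ E) (hnd : l.Nodup)
    (rs : List (MvPolynomial (Fin n × Fin d) k))
    (hrs : IsWeaklyRegular (MvPolynomial (Fin n × Fin d) k) rs)
    (hgen : Ideal.ofList rs = lssIdeal k E d) :
    IsWeaklyRegular (MvPolynomial (Fin n × Fin d) k) (l.map (lssGen k d)) := by
  refine wr_descend _ (fun x hx => ?_) ?_
  · obtain ⟨B, -, rfl⟩ := List.mem_map.1 hx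
    exact ⟨_, lssGen_isHomogeneous d B⟩
  set L := Localization.AtPrime (origin (Fin n × Fin d) k)
  have h1 := hrs.of_isLocalization L (origin (Fin n × Fin d) k).primeCompl
  have := exchange ((lssIdeal k E d).map (algebraMap _ L)) ?_
    ((l.map (lssGen k d)).map (algebraMap _ L)) [] _ (by simpa using h1)
    (by rw [List.nil_append, ← Ideal.map_ofList, hgen]) ?_
  · simpa using this
  · rw [← Localization.AtPrime.map_eq_maximalIdeal]
    exact Ideal.map_mono (lssIdeal_le_origin d hne)
  · intro q1 f q2 e
    rw [List.map_map, List.map_eq_append_iff] at e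
    obtain ⟨l1, l2, rfl, rfl, e⟩ := e
    rw [List.map_eq_cons_iff] at e
    obtain ⟨A, l3, rfl, rfl, rfl⟩ := e
    have hA : A ∈ E := hl A (by simp)
    refine ⟨Ideal.mem_map_of_mem _ (Ideal.subset_span ⟨A, hA, rfl⟩), fun hmem => ?_⟩
    rw [List.nil_append, ← List.map_map, ← Ideal.map_ofList,
      ← Localization.AtPrime.map_eq_maximalIdeal, ← Ideal.map_mul, ← Ideal.map_sup,
      Function.comp_apply,
      IsLocalization.algebraMap_mem_map_algebraMap_iff (origin (Fin n × Fin d) k).primeCompl]
      at hmem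
    obtain ⟨s, hs, hsy⟩ := hmem
    refine lssGen_indep hd hne hcl hA l1 (fun B hB => hl B (by simp [hB])) (fun h => ?_) hs hsy
    rw [List.nodup_append] at hnd
    exact hnd.2.2 A h A (by simp) rfl

/-- `S_{d+1} → S_d`, killing the variables of the last column. -/
noncomputable def killLast (k : Type*) [Field k] (n d : ℕ) :
    MvPolynomial (Fin n × Fin (d + 1)) k →ₐ[k] MvPolynomial (Fin n × Fin d) k :=
  aeval fun y => Fin.lastCases (motive := fun _ => _) 0 (fun j => X (y.1, j)) y.2

lemma killLast_lssGen (d : ℕ) {A : Finset (Fin n)} (hA : A.Nonempty) :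
    killLast k n d (lssGen k (d + 1) A) = lssGen k d A := by
  simp [lssGen, killLast, Fin.sum_univ_castSucc, hA.ne_empty]

lemma killLast_rename (d : ℕ) (g : MvPolynomial (Fin n × Fin d) k) :
    killLast k n d (rename (fun y : Fin n × Fin d => (y.1, y.2.castSucc)) g) = g := by
  have : (killLast k n d).comp (rename (fun y : Fin n × Fin d => (y.1, y.2.castSucc)))
      = AlgHom.id _ _ := by
    ext y : 1
    simp [killLast]
  exact AlgHom.congr_fun this g

lemma ker_killLast (d : ℕ) :
    RingHom.ker (killLast k n d).toRingHom =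
      Ideal.ofList (((List.finRange n).map fun i => (i, Fin.last d)).map X) := by
  set J : Ideal (MvPolynomial (Fin n × Fin (d + 1)) k) :=
    Ideal.ofList (((List.finRange n).map fun i => (i, Fin.last d)).map X) with hJ
  apply le_antisymm
  · intro g hg
    have hg' : killLast k n d g = 0 := hg
    have : (Ideal.Quotient.mkₐ k J).comp
        ((rename (fun y : Fin n × Fin d => (y.1, y.2.castSucc))).comp (killLast k n d))
        = Ideal.Quotient.mkₐ k J := by
      ext y : 1
      obtain ⟨i, j⟩ := y
      induction j using Fin.lastCases with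
      | last =>
        have : (X (i, Fin.last d) : MvPolynomial (Fin n × Fin (d + 1)) k) ∈ J :=
          Ideal.subset_span (by simp)
        simp [killLast, Ideal.Quotient.eq_zero_iff_mem.2 this]
      | cast j => simp [killLast]
    have h2 := AlgHom.congr_fun this g
    simp only [AlgHom.comp_apply, hg', map_zero, Ideal.Quotient.mkₐ_eq_mk] at h2
    exact Ideal.Quotient.eq_zero_iff_mem.1 h2.symm
  · rw [hJ, Ideal.span_le]
    intro x hx
    simp only [List.map_map, List.mem_map, Set.mem_ofPred_eq] at hx
    obtain ⟨i, -, rfl⟩ := hx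
    simp [RingHom.mem_ker, killLast]

theorem wr_lssGen_succ {d : ℕ} (l : List (Finset (Fin n))) (hl : ∀ B ∈ l, B.Nonempty)
    (h : IsWeaklyRegular (MvPolynomial (Fin n × Fin d) k) (l.map (lssGen k d))) :
    IsWeaklyRegular (MvPolynomial (Fin n × Fin (d + 1)) k) (l.map (lssGen k (d + 1))) := by
  have hz := wr_vars (R := k) ((List.finRange n).map fun i => (i, Fin.last d))
    ((List.nodup_finRange n).map fun i j e => (Prod.mk.inj e).1)
  have h1 := wr_lift (killLast k n d).toRingHom (fun g => ⟨_, killLast_rename d g⟩) _ hz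
    (ker_killLast d) (l.map (lssGen k (d + 1))) (by
      rw [List.map_map, List.map_congr_left (g := lssGen k d)]
      · exact h
      · intro B hB
        exact killLast_lssGen d (hl B hB))
  refine wr_descend _ (fun x hx => ?_) ?_
  · obtain ⟨B, -, rfl⟩ := List.mem_map.1 hx
    exact ⟨_, lssGen_isHomogeneous _ B⟩
  set L := Localization.AtPrime (origin (Fin n × Fin (d + 1)) k)
  have h2 := h1.of_isLocalization L (origin (Fin n × Fin (d + 1)) k).primeCompl
  rw [List.map_append] at h2
  refine wr_prefix (IsLocalRing.isWeaklyRegular_of_perm_of_subset_maximalIdeal h2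
    List.perm_append_comm fun r hr => ?_)
  rw [← List.map_append] at hr
  obtain ⟨x, hx, rfl⟩ := List.mem_map.1 hr
  rw [← Localization.AtPrime.map_eq_maximalIdeal]
  refine Ideal.mem_map_of_mem _ ?_
  rcases List.mem_append.1 hx with hx | hx
  · obtain ⟨y, -, rfl⟩ := List.mem_map.1 hx
    rw [mem_origin]
    simp
  · obtain ⟨B, hB, rfl⟩ := List.mem_map.1 hx
    exact lssGen_mem_origin _ (hl B hB)

theorem ci_succ {d : ℕ} (hd : 1 ≤ d) {E : Set (Finset (Fin n))}
    (hne : ∀ A ∈ E, A.Nonempty) (hcl : ∀ A ∈ E, ∀ B ∈ E, A ⊆ B → A = B)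
    (h : ∃ rs : List (MvPolynomial (Fin n × Fin d) k),
      IsRegular (MvPolynomial (Fin n × Fin d) k) rs ∧ Ideal.ofList rs = lssIdeal k E d) :
    ∃ rs : List (MvPolynomial (Fin n × Fin (d + 1)) k),
      IsRegular (MvPolynomial (Fin n × Fin (d + 1)) k) rs ∧
        Ideal.ofList rs = lssIdeal k E (d + 1) := by
  classical
  obtain ⟨rs, hrs, hgen⟩ := h
  let l := (Set.toFinite E).toFinset.toList
  have hl : ∀ B, B ∈ l ↔ B ∈ E := by
    intro B
    rw [Finset.mem_toList, Set.Finite.mem_toFinset]
  have hnd : l.Nodup := Finset.nodup_toList _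
  have h1 := wr_lssGen hd hne hcl l (fun B hB => (hl B).1 hB) hnd rs hrs.toIsWeaklyRegular hgen
  refine ⟨l.map (lssGen k (d + 1)),
    ⟨wr_lssGen_succ l (fun B hB => hne B ((hl B).1 hB)) h1, ?_⟩, ofList_lssGen _ l hl⟩
  rw [ofList_lssGen _ l hl, smul_eq_mul, Ideal.mul_top]
  intro e
  exact (origin_isPrime (k := k) (Fin n × Fin (d + 1))).ne_top
    (top_le_iff.1 (e ▸ lssIdeal_le_origin (d + 1) hne))

end Pool.Agent.Lib.MP_3122b6_ag
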